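import Pool.Agent.R793.MR.Stm

/-!
Project MR (MP_e79d62_co), piece MR-D: `StmT → StmFinal`.
Adapted to characteristic two from `Pool/Agent/MP5d0678/Main.lean` (helper20).
-/

set_option autoImplicit false

open Module

namespace Pool.Agent.R724.MR

section
variable {F K : Type} [Field F] [Field K] [Algebra F K]

/-- the linear map `z ↦ a z + b (σ z + δ σ⁵ z)` -/
noncomputable def cmap (σ : K ≃ₐ[F] K) (δ : K) : (K × K) →ₗ[F] (K →ₗ[F] K) where
  toFun p :=
    { toFun := fun z => p.1 * z + p.2 * (σ z + δ * σ (σ (σ (σ (σ z)))))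
      map_add' := by intro x y; simp only [map_add]; ring
      map_smul' := by
        intro t x
        simp only [RingHom.id_apply, Algebra.smul_def, map_mul, σ.commutes]; ring }
  map_add' := by intro x y; ext z; simp; ring
  map_smul' := by intro t x; ext z; simp [Algebra.smul_def]; ring

lemma cmap_apply (σ : K ≃ₐ[F] K) (δ : K) (p : K × K) (z : K) :
    cmap σ δ p z = p.1 * z + p.2 * (σ z + δ * σ (σ (σ (σ (σ z))))) := rfl

lemma ind (σ : K ≃ₐ[F] K) (hσ : orderOf σ = 8) (β : Fin 8 → K)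
    (hβ : ∀ y : K, ∑ i : Fin 8, β i * (σ ^ (i : ℕ)) y = 0) : ∀ i, β i = 0 := by
  have h1 := linearIndependent_monoidHom K K
  let f : Fin 8 → (K →* K) := fun i => ((σ ^ (i : ℕ) : K ≃ₐ[F] K) : K →* K)
  have hf : Function.Injective f := by
    intro i j hij
    have e : σ ^ (i : ℕ) = σ ^ (j : ℕ) := by
      ext x
      exact DFunLike.congr_fun hij x
    have := pow_inj_mod.1 e
    rw [hσ] at this
    ext
    rw [Nat.mod_eq_of_lt i.2, Nat.mod_eq_of_lt j.2] at this
    exact this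
  have h2 := h1.comp f hf
  rw [Fintype.linearIndependent_iff] at h2
  apply h2
  ext y
  simp only [Finset.sum_apply, Pi.smul_apply, smul_eq_mul, Function.comp]
  exact hβ y

lemma pow8 (σ : K ≃ₐ[F] K) (hσ : orderOf σ = 8) (x : K) :
    σ (σ (σ (σ (σ (σ (σ (σ x))))))) = x := by
  have h : σ ^ 8 = 1 := by rw [← hσ]; exact pow_orderOf_eq_one σ
  have := congrArg (fun f : K ≃ₐ[F] K => f x) h
  simpa [pow_succ] using this

lemma pow4_ne (σ : K ≃ₐ[F] K) (hσ : orderOf σ = 8) : ∃ x, σ (σ (σ (σ x))) ≠ x := by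
  by_contra hcon
  push Not at hcon
  have h4 : σ ^ 4 = 1 := by
    ext x
    have := hcon x
    simpa [pow_succ] using this
  have := orderOf_dvd_of_pow_eq_one h4
  rw [hσ] at this
  omega

lemma cmap_inj (σ : K ≃ₐ[F] K) (hσ : orderOf σ = 8) (δ : K) (p : K × K)
    (h : cmap σ δ p = 0) : p = 0 := by
  have := ind σ hσ ![p.1, p.2, 0, 0, 0, p.2 * δ, 0, 0] (by
    intro y
    have e := congrArg (fun φ : K →ₗ[F] K => φ y) h
    simp only [cmap_apply, LinearMap.zero_apply] at e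
    simp [Fin.sum_univ_succ, pow_succ]
    linear_combination e)
  have h0 := this 0
  have h1 := this 1
  simp at h0 h1
  ext <;> simpa

/-- from `t` to a two-dimensional kernel -/
lemma exists_x [CharP K 2] (σ : K ≃ₐ[F] K) (hσ : orderOf σ = 8) (δ t : K) (hδ : δ ≠ 0)
    (ht : σ t ≠ t)
    (hrel : (t + σ t) * (σ (σ (σ (σ t))) + σ (σ (σ (σ (σ t))))) =
      (δ * σ (σ (σ (σ δ)))) * ((t + σ (σ (σ (σ (σ t))))) * (σ (σ (σ (σ t))) + σ t))) :
    ∃ x : K, x ≠ 0 ∧ σ (t * x) + δ * σ (σ (σ (σ (σ (t * x)))))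
      = t * (σ x + δ * σ (σ (σ (σ (σ x))))) := by
  have h8 := pow8 σ hσ
  have hc : ∀ a b : K, a + b = 0 → a = b := by
    intro a b h
    have h2 : b + b = 0 := CharTwo.add_self_eq_zero b
    linear_combination h - h2
  have ht5 : t + σ (σ (σ (σ (σ t)))) ≠ 0 := by
    intro h
    have h5 : σ (σ (σ (σ (σ t)))) = t := (hc _ _ h).symm
    apply ht
    have e1 : σ (σ (σ (σ (σ (σ (σ (σ (σ (σ t))))))))) = t := by
      rw [h5, h5]
    rw [h8] at e1
    -- e1 : σ (σ t) = t
    have e2 : σ (σ (σ (σ t))) = t := by rw [e1, e1]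
    rw [e2] at h5
    exact h5
  have hst : t + σ t ≠ 0 := fun h => ht (hc _ _ h).symm
  obtain ⟨G, hG'⟩ : ∃ G, G = (t + σ t) / (δ * (t + σ (σ (σ (σ (σ t)))))) := ⟨_, rfl⟩
  have hG0 : G ≠ 0 := by
    rw [hG']; exact div_ne_zero hst (mul_ne_zero hδ ht5)
  have hδ4 : σ (σ (σ (σ δ))) ≠ 0 := by simpa using hδ
  have hst4 : σ (σ (σ (σ t))) + σ t ≠ 0 := by
    intro h
    apply ht5
    have := congrArg (fun y => σ (σ (σ (σ y)))) h
    simp only [map_add, map_zero, h8] at this
    exact this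
  have hGN : G * σ (σ (σ (σ G))) = 1 := by
    rw [hG']
    simp only [map_div₀, map_add, map_mul, h8]
    rw [div_mul_div_comm, div_eq_one_iff_eq
      (mul_ne_zero (mul_ne_zero hδ ht5) (mul_ne_zero hδ4 hst4))]
    linear_combination hrel
  have hGi : σ (σ (σ (σ G⁻¹))) = G := by
    simp only [map_inv₀]
    exact inv_eq_of_mul_eq_one_left hGN
  obtain ⟨y, hy0, hy⟩ : ∃ y : K, y ≠ 0 ∧ σ (σ (σ (σ y))) = G * y := by
    by_cases hG1 : G = 1
    · exact ⟨1, one_ne_zero, by simp [hG1]⟩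
    · refine ⟨1 + G⁻¹, ?_, ?_⟩
      · intro h
        apply hG1
        have h1 := hc _ _ h
        exact (inv_eq_one.mp h1.symm)
      · simp only [map_add, map_one, hGi]
        rw [mul_add, mul_inv_cancel₀ hG0]; ring
  obtain ⟨Z, hZ⟩ : ∃ Z, Z = σ (σ (σ (σ (σ (σ (σ y)))))) := ⟨_, rfl⟩
  have e1 : σ Z = y := by rw [hZ]; exact h8 y
  refine ⟨Z, ?_, ?_⟩
  · intro h; rw [h, map_zero] at e1; exact hy0 e1.symm
  simp only [map_mul, e1, hy]
  have e2 : G * (δ * (t + σ (σ (σ (σ (σ t)))))) = t + σ t := by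
    rw [hG']; exact div_mul_cancel₀ _ (mul_ne_zero hδ ht5)
  have h2t : t + t = 0 := CharTwo.add_self_eq_zero t
  have h2s : σ t + σ t = 0 := CharTwo.add_self_eq_zero (σ t)
  linear_combination y * e2 + y * h2s - (y * (1 + G * δ)) * h2t + y * h2t

/-- the main theorem for a general generator of the Galois group -/
theorem main_sigma [Fintype F] [Fintype K] [FiniteDimensional F K] [CharP K 2]
    (hT : Pool.Agent.R793.MR.StmT) (σ : K ≃ₐ[F] K) (hσ : orderOf σ = 8)
    (hK : finrank F K = 8) (δ : K) (hδ : δ ≠ 0) (C : Submodule F (K →ₗ[F] K))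
    (hC : ∀ φ : K →ₗ[F] K, φ ∈ C ↔ ∃ a b : K, ∀ z, φ z = a * z + b *
      (σ z + δ * σ (σ (σ (σ (σ z)))))) :
    ¬ (∃ d : ℕ, IsLeast {r | ∃ φ ∈ C, φ ≠ 0 ∧ r = finrank F (LinearMap.range φ)} d ∧
      finrank F C = 8 * (8 - d + 1)) := by
  have h8 := pow8 σ hσ
  have hCr : C = LinearMap.range (cmap σ δ) := by
    ext φ
    rw [hC, LinearMap.mem_range]
    constructor
    · rintro ⟨a, b, h⟩
      exact ⟨(a, b), by ext z; rw [cmap_apply, h]⟩
    · rintro ⟨p, rfl⟩
      exact ⟨p.1, p.2, fun z => by rw [cmap_apply]⟩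
  have hdimC : finrank F C = 16 := by
    rw [hCr, LinearMap.finrank_range_of_inj]
    · rw [Module.finrank_prod, hK]
    · rw [← LinearMap.ker_eq_bot, LinearMap.ker_eq_bot']
      intro p hp
      exact cmap_inj σ hσ δ p hp
  -- the map with kernel containing a given x
  have hφ : ∀ x : K, x ≠ 0 → ∃ φ ∈ C, φ ≠ 0 ∧ φ x = 0 ∧ ∃ p : K × K, p.2 = 1 ∧ φ = cmap σ δ p := by
    intro x hx
    refine ⟨cmap σ δ (-(σ x + δ * σ (σ (σ (σ (σ x))))) / x, 1), ?_, ?_, ?_, _, rfl, rfl⟩
    · rw [hCr]; exact ⟨_, rfl⟩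
    · intro h
      have := cmap_inj σ hσ δ _ h
      have := congrArg Prod.snd this
      simp at this
    · rw [cmap_apply]
      simp only
      field_simp
      ring
  rintro ⟨d, ⟨⟨φ0, _, _, hd0⟩, hd2⟩, hd3⟩
  rw [hdimC] at hd3
  have hd : d = 7 := by omega
  obtain ⟨t, ht, hrel⟩ := hT K (σ : K ≃+* K) h8 (pow4_ne σ hσ) (δ * σ (σ (σ (σ δ))))
    (by
      change σ (σ (σ (σ (δ * σ (σ (σ (σ δ))))))) = _
      simp only [map_mul, h8]; ring) (mul_ne_zero hδ (by simpa using hδ))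
  obtain ⟨x, hx0, hx⟩ := exists_x σ hσ δ t hδ ht hrel
  obtain ⟨φ, hφC, hφ0, hφx, p, hp2, hφp⟩ := hφ x hx0
  have hφtx : φ (t * x) = 0 := by
    have e1 := hφx
    rw [hφp, cmap_apply, hp2] at e1
    rw [hφp, cmap_apply, hp2, hx]
    linear_combination t * e1
  have hker : ¬ finrank F (LinearMap.ker φ) ≤ 1 := by
    intro h
    rw [finrank_le_one_iff] at h
    obtain ⟨v, hv⟩ := h
    obtain ⟨α, hα⟩ := hv ⟨x, hφx⟩
    obtain ⟨β, hβ⟩ := hv ⟨t * x, hφtx⟩
    have hα' : algebraMap F K α * (v : K) = x := by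
      have := congrArg Subtype.val hα
      simpa [Algebra.smul_def] using this
    have hβ' : algebraMap F K β * (v : K) = t * x := by
      have := congrArg Subtype.val hβ
      simpa [Algebra.smul_def] using this
    have hv0 : (v : K) ≠ 0 := by
      intro h; rw [h, mul_zero] at hα'; exact hx0 hα'.symm
    have hα0 : algebraMap F K α ≠ 0 := by
      intro h; rw [h, zero_mul] at hα'; exact hx0 hα'.symm
    have htt : t = algebraMap F K (β / α) := by
      rw [map_div₀, eq_div_iff hα0]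
      have : (t * algebraMap F K α - algebraMap F K β) * (v : K) = 0 := by
        linear_combination t * hα' - hβ'
      rcases mul_eq_zero.1 this with h | h
      · exact sub_eq_zero.1 h
      · exact absurd h hv0
    apply ht
    rw [htt]
    exact σ.commutes _
  have hrk : finrank F (LinearMap.range φ) + finrank F (LinearMap.ker φ) = 8 := by
    rw [LinearMap.finrank_range_add_finrank_ker, hK]
  have := hd2 ⟨φ, hφC, hφ0, rfl⟩
  omega

end

/-- **MR-D** -/
theorem mrD : Pool.Agent.R793.MR.StmD := by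
  intro hT F K _ _ _ _ _ heven hK δ hδ s hs
  classical
  have : FiniteDimensional F K := Module.finite_of_finrank_eq_succ hK
  have hFc : ringChar F = 2 := by
    by_contra h
    have := FiniteField.odd_card_of_char_ne_two h
    rw [Nat.even_iff] at heven
    omega
  have hF2 : CharP F 2 := by
    have := ringChar.charP F
    rwa [hFc] at this
  have : CharP K 2 := charP_of_injective_algebraMap (algebraMap F K).injective 2
  set σ0 := FiniteField.frobeniusAlgEquivOfAlgebraic F K with hσ0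
  have ho : orderOf σ0 = 8 := by
    rw [hσ0, FiniteField.orderOf_frobeniusAlgEquivOfAlgebraic, hK]
  have hpow : ∀ (n : ℕ) (z : K), (σ0 ^ n) z = z ^ (Fintype.card F ^ n) := by
    intro n z
    have := congrFun (FiniteField.coe_frobeniusAlgEquivOfAlgebraic_iterate F K n) z
    rw [← this]
    rw [← AlgEquiv.coe_pow]
  have hcop : Nat.Coprime (orderOf σ0) s := by
    rw [ho]; rcases hs with rfl | rfl | rfl | rfl <;> decide
  have hσ : orderOf (σ0 ^ s) = 8 := by
    rw [hcop.orderOf_pow, ho]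
  have h5 : ∀ z, (σ0 ^ s) ((σ0 ^ s) ((σ0 ^ s) ((σ0 ^ s) ((σ0 ^ s) z)))) =
      z ^ (Fintype.card F ^ (4 + s)) := by
    intro z
    rw [← hpow]
    have e1 : (σ0 ^ s) ((σ0 ^ s) ((σ0 ^ s) ((σ0 ^ s) ((σ0 ^ s) z)))) = (σ0 ^ (s * 5)) z := by
      rw [pow_mul]; simp [pow_succ]
    have e2 : σ0 ^ (s * 5) = σ0 ^ (4 + s) := by
      rw [pow_inj_mod, ho]
      rcases hs with rfl | rfl | rfl | rfl <;> rfl
    rw [e1, e2]
  refine main_sigma hT (σ0 ^ s) hσ hK δ hδ (Pool.Agent.R793.MR.code F δ s) ?_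
  intro φ
  simp only [h5]
  simp only [hpow]
  exact Iff.rfl

end Pool.Agent.R724.MR
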